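import Pool.Agent.H71.AL.Targets
import Pool.Agent.H71.Keep.MonotoneOrders

/-!
# MP_5607ba_lc: row FUN
-/

set_option autoImplicit false

open Set
open Pool.Agent.AL

namespace Pool.Agent.H17.ALV

open Pool.Agent.H71.Keep.MonotoneOrders

/-- the relations which code the functions -/
def sq (y : Y) (k a b : ℕ) : Bool :=
  if k % 2 = 0 then (decide (y.2 (k / 2) a = b) || y.1 (y.2 (k / 2) a) b)
  else y.1 (y.2 (k / 2) a) b

/-- the structure -/
def enc (y : Y) : Structure Unit := (y.1, sq y, fun _ => ())

theorem sq_even (y : Y) (j a b : ℕ) :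
    sq y (2 * j) a b = (decide (y.2 j a = b) || y.1 (y.2 j a) b) := by
  unfold sq
  rw [if_pos (by omega), show 2 * j / 2 = j by omega]

theorem sq_odd (y : Y) (j a b : ℕ) : sq y (2 * j + 1) a b = y.1 (y.2 j a) b := by
  unfold sq
  rw [if_neg (by omega), show (2 * j + 1) / 2 = j by omega]

theorem irr {y : Y} (h : Ln y) (a : ℕ) : y.1 a a = false := by
  have := h.1 a
  unfold lt at this
  simpa using this

theorem val_iff {y : Y} (h : Ln y) (j a b : ℕ) :
    y.2 j a = b ↔ sq y (2 * j) a b = true ∧ sq y (2 * j + 1) a b = false := by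
  rw [sq_even, sq_odd]
  constructor
  · rintro rfl
    exact ⟨by simp, irr h _⟩
  · rintro ⟨h1, h2⟩
    rw [h2, Bool.or_false, decide_eq_true_eq] at h1
    exact h1

theorem iso_enc {y z : Y} {g : Equiv.Perm ℕ} (h : IsoH y z g) :
    IsIsomorphism (enc y) (enc z) g := by
  refine ⟨h.1, fun k a b => ?_, fun _ => rfl⟩
  change sq z k (g a) (g b) = sq y k a b
  unfold sq
  simp only [h.2, h.1, g.injective.eq_iff]

theorem enc_iso {y z : Y} (hy : Ln y) (hz : Ln z) {g : Equiv.Perm ℕ}
    (h : IsIsomorphism (enc y) (enc z) g) : IsoH y z g := by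
  refine ⟨h.1, fun k a => ?_⟩
  have h1 := (val_iff hy k a (y.2 k a)).1 rfl
  have h2 := h.2.1 (2 * k) a (y.2 k a)
  have h3 := h.2.1 (2 * k + 1) a (y.2 k a)
  rw [val_iff hz]
  exact ⟨h2.trans h1.1, h3.trans h1.2⟩

theorem measurable_app (j a b : ℕ) : Measurable fun y : Y => y.1 (y.2 j a) b := by
  refine measurable_to_countable' fun c => ?_
  have h1 : (fun y : Y => y.1 (y.2 j a) b) ⁻¹' {c} =
      ⋃ n : ℕ, {y : Y | y.2 j a = n} ∩ {y : Y | y.1 n b = c} := by
    ext y
    simp
  rw [h1]
  refine MeasurableSet.iUnion fun n => MeasurableSet.inter ?_ ?_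
  · have h2 : Measurable fun y : Y => y.2 j a :=
      (measurable_pi_apply a).comp ((measurable_pi_apply j).comp measurable_snd)
    exact h2 (measurableSet_singleton n)
  · have h2 : Measurable fun y : Y => y.1 n b :=
      (measurable_pi_apply b).comp ((measurable_pi_apply n).comp measurable_fst)
    exact h2 (measurableSet_singleton c)

theorem measurable_enc : Measurable enc := by
  refine measurable_fst.prodMk (Measurable.prodMk ?_ measurable_const)
  refine measurable_pi_lambda _ fun k => measurable_pi_lambda _ fun a =>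
    measurable_pi_lambda _ fun b => ?_
  unfold sq
  by_cases hk : k % 2 = 0
  · simp only [if_pos hk]
    have h2 : Measurable fun y : Y => y.2 (k / 2) a :=
      (measurable_pi_apply a).comp ((measurable_pi_apply (k / 2)).comp measurable_snd)
    have h3 : Measurable fun y : Y => decide (y.2 (k / 2) a = b) := by
      have h4 : Measurable fun n : ℕ => decide (n = b) := measurable_from_top
      exact h4.comp h2
    have h5 : Measurable fun p : Bool × Bool => (p.1 || p.2) := measurable_of_countable _
    exact h5.comp (h3.prodMk (measurable_app (k / 2) a b))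
  · simp only [if_neg hk]
    exact measurable_app (k / 2) a b

theorem enc_mono {y : Y} (h : Ln y) (hm : ∀ k, Mt y (y.2 k)) : IsMonotone (enc y) := by
  refine ⟨⟨irr h, fun a b hab => h.2.1 a b hab, fun a b d h1 h2 => h.2.2 a b d h1 h2⟩,
    fun k => ?_⟩
  change IsMonotoneRelation y.1 (sq y k)
  have htr : ∀ {a b c : ℕ}, y.1 a b = true → y.1 b c = true → y.1 a c = true :=
    fun h1 h2 => h.2.2 _ _ _ h1 h2
  have key : ∀ a a' b b' : ℕ, (y.2 (k / 2) a' = y.2 (k / 2) a ∨
      y.1 (y.2 (k / 2) a') (y.2 (k / 2) a) = true) → (b = b' ∨ y.1 b b' = true) →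
      sq y k a b = true → sq y k a' b' = true := by
    intro a a' b b' h1 h2 h3
    unfold sq at h3 ⊢
    by_cases hk : k % 2 = 0
    · rw [if_pos hk] at h3 ⊢
      rw [Bool.or_eq_true, decide_eq_true_eq] at h3 ⊢
      rcases h1 with h1 | h1 <;> rcases h2 with h2 | h2 <;> rcases h3 with h3 | h3
      · exact Or.inl (h1.trans (h3.trans h2))
      · exact Or.inr (by rw [h1, ← h2]; exact h3)
      · exact Or.inr (by rw [h1, h3]; exact h2)
      · exact Or.inr (by rw [h1]; exact htr h3 h2)
      · exact Or.inr (by rw [← h2, ← h3]; exact h1)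
      · exact Or.inr (by rw [← h2]; exact htr h1 h3)
      · exact Or.inr (htr (h3 ▸ h1) h2)
      · exact Or.inr (htr h1 (htr h3 h2))
    · rw [if_neg hk] at h3 ⊢
      rcases h1 with h1 | h1 <;> rcases h2 with h2 | h2
      · rw [h1, ← h2]; exact h3
      · rw [h1]; exact htr h3 h2
      · rw [← h2]; exact htr h1 h3
      · exact htr h1 (htr h3 h2)
  have hb : ∀ b b' : ℕ, OrderLE y.1 true b b' → b = b' ∨ y.1 b b' = true := by
    intro b b' h1
    rcases h1 with h1 | h1
    · exact Or.inl h1
    · rw [if_pos rfl] at h1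
      exact Or.inr h1
  rcases hm (k / 2) with h1 | h1
  · refine ⟨true, true, fun a a' b b' h2 h3 h4 => key a a' b b' ?_ (hb b b' h4) h3⟩
    rcases hb a' a h2 with h5 | h5
    · exact Or.inl (by rw [h5])
    · exact h1 a' a h5
  · refine ⟨false, true, fun a a' b b' h2 h3 h4 => key a a' b b' ?_ (hb b b' h4) h3⟩
    rcases h2 with h5 | h5
    · exact Or.inl (by rw [h5])
    · rw [if_neg (by decide)] at h5
      rcases h1 a a' h5 with h6 | h6
      · exact Or.inl h6.symm
      · exact Or.inr h6

theorem pf_FUN : T_FUN := by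
  intro X hX hinv hmon
  have hLn : ∀ y ∈ X, Ln y := fun y hy => (hmon y hy).1
  have hinj : InjOn enc X := by
    intro y hy z hz hyz
    have h1 : y.1 = z.1 := congrArg (fun s : Structure Unit => s.1) hyz
    have h2 : sq y = sq z := congrArg (fun s : Structure Unit => s.2.1) hyz
    refine Prod.ext h1 (funext fun j => funext fun a => ?_)
    rw [eq_comm, val_iff (hLn z hz), ← h2]
    exact (val_iff (hLn y hy) j a _).1 rfl
  have hX1 : MeasurableSet (enc '' X) := hX.image_of_measurable_injOn measurable_enc hinj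
  have hinv1 : ∀ x ∈ enc '' X, ∀ y g, IsIsomorphism x y g → y ∈ enc '' X := by
    rintro x ⟨y, hy, rfl⟩ x1 g hg
    set y1 : Y := (fun a b => y.1 (g.symm a) (g.symm b), fun k a => g (y.2 k (g.symm a)))
      with hy1
    have h1 : IsoH y y1 g := by
      refine ⟨fun m n => ?_, fun k m => ?_⟩
      · change y.1 (g.symm (g m)) (g.symm (g n)) = _
        rw [Equiv.symm_apply_apply, Equiv.symm_apply_apply]
      · change g (y.2 k (g.symm (g m))) = _
        rw [Equiv.symm_apply_apply]
    have h2 : y1 ∈ X := hinv y hy y1 ⟨g, h1⟩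
    refine ⟨y1, h2, ?_⟩
    have h3 := iso_enc h1
    refine Prod.ext ?_ (Prod.ext ?_ ?_)
    · funext a b
      have h4 := (h3.1 (g.symm a) (g.symm b)).trans (hg.1 (g.symm a) (g.symm b)).symm
      rwa [Equiv.apply_symm_apply, Equiv.apply_symm_apply] at h4
    · funext k a b
      have h4 := (h3.2.1 k (g.symm a) (g.symm b)).trans (hg.2.1 k (g.symm a) (g.symm b)).symm
      rwa [Equiv.apply_symm_apply, Equiv.apply_symm_apply] at h4
    · funext a
      rfl
  rcases result (C := Unit) (enc '' X) hX1 hinv1 with ⟨F, hF, hFX, hFi⟩ | ⟨D, hD, hDX⟩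
  · left
    choose G hG hGF using hFX
    refine ⟨G, ?_, hG, fun u v huv hiso => ?_⟩
    · have h1 : (fun u => (G u).1) = fun u => (F u).1 := by
        funext u
        rw [← hGF u]
        rfl
      have h2 : Measurable fun u => (G u).1 := by
        rw [h1]
        exact measurable_fst.comp hF
      have h3 : Measurable fun u => (G u).2 := by
        refine measurable_pi_lambda _ fun k => measurable_pi_lambda _ fun a => ?_
        refine measurable_to_countable' fun b => ?_
        have h4 : (fun u => (G u).2 k a) ⁻¹' {b} =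
            {u | (F u).2.1 (2 * k) a b = true} ∩ {u | (F u).2.1 (2 * k + 1) a b = false} := by
          ext u
          change (G u).2 k a = b ↔ (F u).2.1 (2 * k) a b = true ∧ (F u).2.1 (2 * k + 1) a b = false
          rw [← hGF u]
          exact val_iff (hLn _ (hG u)) k a b
        rw [h4]
        have h5 : ∀ i, Measurable fun u => (F u).2.1 i a b := fun i =>
          (measurable_pi_apply b).comp ((measurable_pi_apply a).comp
            ((measurable_pi_apply i).comp (measurable_fst.comp (measurable_snd.comp hF))))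
        exact (h5 _ (measurableSet_singleton true)).inter (h5 _ (measurableSet_singleton false))
      exact h2.prodMk h3
    · obtain ⟨g, hg⟩ := hiso
      refine hFi u v huv ⟨g, ?_⟩
      rw [← hGF u, ← hGF v]
      exact iso_enc hg
  · right
    refine ⟨X ∩ enc ⁻¹' D, ?_, fun y hy => ?_⟩
    · have h1 : (enc '' (X ∩ enc ⁻¹' D)).Countable := hD.mono (by
        rintro _ ⟨y, hy, rfl⟩
        exact hy.2)
      exact countable_of_injective_of_countable_image (hinj.mono inter_subset_left) h1
    · obtain ⟨d, hd, g, hg⟩ := hDX (enc y) ⟨⟨y, hy, rfl⟩, enc_mono (hLn y hy) (hmon y hy).2⟩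
      obtain ⟨z, hz, rfl⟩ := hinv1 _ ⟨y, hy, rfl⟩ d g hg
      exact ⟨z, ⟨hz, hd⟩, g, enc_iso (hLn y hy) (hLn z hz) hg⟩

end Pool.Agent.H17.ALV
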